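import Pool.Agent.V60.LD.Win
import Pool.Agent.V60.LD.Lim
import Pool.Agent.V1193.PL.B

/-!
# Primes just above `α 2 ^ n`, `n` in short intervals, for almost every real number `α`

For almost every real `α > 0` the exponents `n` for which `[α 2 ^ n, α 2 ^ n + p_n]` contains at least `c log n`
primes occur with positive logarithmic density in EVERY interval `[X, Y]` of exponents with large `X` and
`Y ≥ X (log X) ^ C`.  The same holds for the exponents `n` for which the number of primes in `[α 2 ^ n, α 2 ^ n + H]`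
has the right order of magnitude `H / n` for ALL `H` between `n / c` and `2 ^ (κ n)` at once.  On the other hand the
exponents `n` for which `[α 2 ^ n, α 2 ^ n + δ n]` contains no prime have logarithmic density at least `1 - ε` in all
these intervals.  The same holds for every base `b ≥ 2`.

The proofs of the deductions are adapted from the hand-in `AlmostEveryAmplitude` of a teammate, which concerns the
densities in `[1, N]`.
-/

set_option autoImplicit false

open Filter Topology MeasureTheory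

namespace Pool.Agent.Results.MP_78b39f_nt.ShortIntervalsOfExponents

/-- the number of primes `p` with `x ≤ p ≤ x + H` -/
noncomputable def primesIn (x H : ℝ) : ℕ := {p : ℕ | p.Prime ∧ x ≤ p ∧ (p : ℝ) ≤ x + H}.ncard

/-- the `n`-th prime, `p_1 = 2` -/
noncomputable def nthPrime (n : ℕ) : ℕ := Nat.nth Nat.Prime (n - 1)

open Classical in
/-- the logarithmic density of `T` is at least `c` in every interval `[X, Y]` with large `X` and `Y ≥ X (log X) ^ C` -/
def LocDens (T : Set ℕ) (c : ℝ) (C : ℕ) : Prop := ∀ᶠ X : ℕ in atTop, ∀ Y : ℕ,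
  (X : ℝ) * Real.log X ^ C ≤ Y →
    c * Real.log ((Y : ℝ) / X) ≤ ∑ n ∈ (Finset.Icc X Y).filter (fun n => n ∈ T), 1 / (n : ℝ)

lemma finite_primes (x H : ℝ) : {p : ℕ | p.Prime ∧ x ≤ p ∧ (p : ℝ) ≤ x + H}.Finite := by
  refine (Set.finite_Iic ⌊x + H⌋₊).subset fun p hp => ?_
  exact Nat.le_floor hp.2.2

lemma primesIn_mono {x H H' : ℝ} (h : H ≤ H') : primesIn x H ≤ primesIn x H' :=
  Set.ncard_le_ncard (fun _ hp => ⟨hp.1, hp.2.1, hp.2.2.trans (by linarith)⟩) (finite_primes x H')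

lemma primesIn_ge {x H : ℝ} (hx : 0 ≤ x) (hH : 0 ≤ H) :
    ((Finset.Ioc ⌊x⌋₊ (⌊x⌋₊ + ⌊H⌋₊)).filter Nat.Prime).card ≤ primesIn x H := by
  rw [← Set.ncard_coe_finset]
  refine Set.ncard_le_ncard ?_ (finite_primes x H)
  intro p hp
  rw [Finset.mem_coe, Finset.mem_filter, Finset.mem_Ioc] at hp
  obtain ⟨⟨h1, h2⟩, h3⟩ := hp
  have h4 := Nat.lt_floor_add_one x
  have h5 := Nat.floor_le hx
  have h6 := Nat.floor_le hH
  have h7 : ((⌊x⌋₊ : ℕ) : ℝ) + 1 ≤ p := by exact_mod_cast h1
  have h8 : (p : ℝ) ≤ (⌊x⌋₊ : ℝ) + ⌊H⌋₊ := by exact_mod_cast h2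
  exact ⟨h3, by linarith, by linarith⟩

lemma primesIn_le {x H : ℝ} (hx : 1 ≤ x) :
    primesIn x H ≤ ((Finset.Ioc (⌊x⌋₊ - 1) (⌊x⌋₊ + ⌊H⌋₊ + 1)).filter Nat.Prime).card := by
  rw [← Set.ncard_coe_finset]
  refine Set.ncard_le_ncard ?_ (Finset.finite_toSet _)
  rintro p ⟨h1, h2, h3⟩
  rw [Finset.mem_coe, Finset.mem_filter, Finset.mem_Ioc]
  have h4 := Nat.lt_floor_add_one x
  have h5 := Nat.floor_le (show (0 : ℝ) ≤ x by linarith)
  have h6 := Nat.lt_floor_add_one H
  have h7 : 1 ≤ ⌊x⌋₊ := Nat.le_floor (by push_cast; exact hx)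
  have h8 : ⌊x⌋₊ ≤ p := by
    have : ((⌊x⌋₊ : ℕ) : ℝ) ≤ p := by linarith
    exact_mod_cast this
  have h9 : p < ⌊x⌋₊ + 1 + (⌊H⌋₊ + 1) := by
    have : (p : ℝ) < ((⌊x⌋₊ + 1 + (⌊H⌋₊ + 1) : ℕ) : ℝ) := by push_cast; linarith
    exact_mod_cast this
  exact ⟨⟨by omega, by omega⟩, h1⟩

/-- all scales at once -/
lemma all_scales (b : ℕ) (hb : 2 ≤ b) (κ : ℝ) (hκ : κ < 1) : ∃ (c : ℝ) (C : ℕ), 0 < c ∧ ∀ᵐ α : ℝ, 0 < α →
    LocDens {n : ℕ | ∀ H : ℝ, n / c ≤ H → H ≤ (b : ℝ) ^ (κ * n) →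
      c * H / n ≤ primesIn (α * (b : ℝ) ^ n) H ∧ (primesIn (α * (b : ℝ) ^ n) H : ℝ) ≤ H / (c * n)} c C := by
  set κ' : ℝ := (max κ 0 + 1) / 2 with hκ'
  have h0 : 0 ≤ max κ 0 := le_max_right _ _
  have h1 : max κ 0 < 1 := max_lt hκ one_pos
  have hκ'0 : 0 < κ' := by linarith
  have hκκ : κ < κ' := by
    have := le_max_left κ 0
    linarith
  obtain ⟨lam, θ, c0, hlam, hθ0, hθ1, hc0, X0, hS⟩ :=
    Pool.Agent.V60.LD.good_dense hκ'0.le (by linarith : κ' < 1)
  have hb1 : (1 : ℝ) < b := by exact_mod_cast (by omega : 1 < b)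
  have hb0 : (0 : ℝ) < b := by linarith
  have hlb : 0 < Real.log b := Real.log_pos hb1
  have hlam0 : 0 < lam := by linarith
  set c : ℝ := min (c0 / 2) (min (1 / (2 * lam * Real.log b)) (Real.log b / (2 * lam))) with hc
  have hcpos : 0 < c := lt_min (by positivity) (lt_min (by positivity) (by positivity))
  have hca : c ≤ c0 / 2 := min_le_left _ _
  have hcb : c ≤ 1 / (2 * lam * Real.log b) := (min_le_right _ _).trans (min_le_left _ _)
  have hcc : c ≤ Real.log b / (2 * lam) := (min_le_right _ _).trans (min_le_right _ _)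
  rw [le_div_iff₀ (by positivity)] at hcb hcc
  obtain ⟨C, hC⟩ := Pool.Agent.V1193.PL.loc_dens hb hc0.le hθ0 hθ1 X0 hS (c' := c0 / 2) (by positivity)
    (by linarith)
  refine ⟨c, C, hcpos, ?_⟩
  filter_upwards [hC] with α hα hα0
  refine (Pool.Agent.V1193.PL.LocDens.anti (hα hα0) hca).mono ?_
  obtain ⟨K, hK0, hK⟩ := Pool.Agent.V60.LD.log_floor hb hα0
  have hn : Tendsto (fun n : ℕ => (n : ℝ)) atTop atTop := tendsto_natCast_atTop_atTop
  have hpow : Tendsto (fun n : ℕ => α * (b : ℝ) ^ n) atTop atTop :=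
    (tendsto_pow_atTop_atTop_of_one_lt hb1).const_mul_atTop hα0
  filter_upwards [hK, hn.eventually_ge_atTop (2 * K / Real.log b), hn.eventually_ge_atTop
    (κ' * K / ((κ' - κ) * Real.log b)), eventually_ge_atTop 1, hpow.eventually_ge_atTop 1] with n hnK hn1 hn2
    hn3 hx1 hmem H hH1 hH2
  obtain ⟨hm1, hlo, hhi⟩ := hnK
  have hnR : (1 : ℝ) ≤ n := by exact_mod_cast hn3
  have hn0 : (0 : ℝ) < n := by linarith
  rw [div_le_iff₀ hlb] at hn1
  rw [div_le_iff₀ (by
    have : 0 < κ' - κ := by linarith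
    positivity)] at hn2
  set x : ℝ := α * (b : ℝ) ^ n with hx
  set m : ℕ := ⌊x⌋₊ with hm
  have hmR : (1 : ℝ) ≤ m := by exact_mod_cast hm1
  have hlog2 : Real.log m ≤ 2 * (n * Real.log b) := by linarith
  have hlog1 : n * Real.log b / 2 ≤ Real.log m := by linarith
  have hH0 : 0 ≤ H := le_trans (by positivity) hH1
  have hmem' : m ∈ Pool.Agent.V60.LD.SG κ' lam := hmem
  have hcond1 : Real.log m ≤ H := by
    refine hlog2.trans (le_trans ?_ hH1)
    rw [le_div_iff₀ hcpos]
    have h2 : c * (2 * Real.log b) ≤ c * (2 * lam * Real.log b) := by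
      apply mul_le_mul_of_nonneg_left _ hcpos.le
      nlinarith
    nlinarith
  have hcond2 : H ≤ (m : ℝ) ^ κ' := by
    refine hH2.trans ?_
    rw [← Real.log_le_log_iff (by positivity) (by positivity), Real.log_rpow hb0, Real.log_rpow (by linarith)]
    have h2 : κ' * (n * Real.log b - K) ≤ κ' * Real.log m := mul_le_mul_of_nonneg_left hlo hκ'0.le
    nlinarith
  have hlm : 0 < Real.log m := lt_of_lt_of_le (by positivity) hlog1
  obtain ⟨g1, g2⟩ := hmem' H hcond1 hcond2
  constructor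
  · have h3 : (((Finset.Ioc m (m + ⌊H⌋₊)).filter Nat.Prime).card : ℝ) ≤ (primesIn x H : ℝ) := by
      exact_mod_cast primesIn_ge (by linarith) hH0
    refine le_trans ?_ (le_trans (g1.trans (le_of_eq (by congr!))) h3)
    rw [div_le_div_iff₀ hn0 (by positivity)]
    have h4 : c * (lam * Real.log m) ≤ n := by
      have h5 : c * (lam * Real.log m) ≤ c * (lam * (2 * (n * Real.log b))) := by gcongr
      have h6 : c * (lam * (2 * (n * Real.log b))) = c * (2 * lam * Real.log b) * n := by ring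
      nlinarith
    nlinarith
  · have h3 : (primesIn x H : ℝ) ≤
        (((Finset.Ioc (m - 1) (m + ⌊H⌋₊ + 1)).filter Nat.Prime).card : ℝ) := by
      exact_mod_cast primesIn_le hx1
    refine (h3.trans (le_trans (le_of_eq (by congr!)) g2)).trans ?_
    rw [div_le_div_iff₀ hlm (by positivity)]
    have h4 : lam * (c * n) ≤ Real.log m := by
      have h5 : lam * (c * n) = c * (2 * lam) * n / 2 := by ring
      have h6 : c * (2 * lam) * n ≤ Real.log b * n := mul_le_mul_of_nonneg_right hcc hn0.le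
      linarith
    nlinarith

/-- a lower bound for the `n`-th prime -/
lemma nthPrime_ge : ∃ C : ℝ, 1 ≤ C ∧ ∀ n : ℕ, 1 ≤ n → n * Real.log n ≤ C * nthPrime n := by
  obtain ⟨C, hC, hbt⟩ := Pool.Agent.H243.BP.bt
  refine ⟨C, hC, fun n hn => ?_⟩
  set P := nthPrime n with hP
  have hPp : P.Prime := Nat.prime_nth_prime (n - 1)
  have hcard : n ≤ ((Finset.Ioc 0 P).filter Nat.Prime).card := by
    have h1 : Nat.count Nat.Prime (P + 1) = n := by
      rw [hP, nthPrime, Nat.count_nth_succ_of_infinite Nat.infinite_setOfPred_prime]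
      omega
    rw [Nat.count_eq_card_filter_range] at h1
    refine h1.symm.le.trans (Finset.card_le_card fun p hp => ?_)
    rw [Finset.mem_filter, Finset.mem_range] at hp
    rw [Finset.mem_filter, Finset.mem_Ioc]
    exact ⟨⟨hp.2.pos, by omega⟩, hp.2⟩
  have hnP : n ≤ P := by
    refine hcard.trans ((Finset.card_filter_le _ _).trans ?_)
    rw [Nat.card_Ioc, Nat.sub_zero]
  have h2 := hbt 0 P hPp.two_le
  rw [zero_add] at h2
  have hP1 : (1 : ℝ) < P := by exact_mod_cast hPp.one_lt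
  have hlP : 0 < Real.log P := Real.log_pos hP1
  rw [le_div_iff₀ hlP] at h2
  have h3 : (n : ℝ) ≤ (((Finset.Ioc 0 P).filter Nat.Prime).card : ℝ) := by exact_mod_cast hcard
  have h4 : Real.log n ≤ Real.log P := Real.log_le_log (by exact_mod_cast hn) (by exact_mod_cast hnP)
  calc (n : ℝ) * Real.log n ≤ n * Real.log P := mul_le_mul_of_nonneg_left h4 (Nat.cast_nonneg n)
    _ ≤ (((Finset.Ioc 0 P).filter Nat.Prime).card : ℝ) * Real.log P := mul_le_mul_of_nonneg_right h3 hlP.le
    _ ≤ C * P := h2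

/-- **Theorem.** Let `b ≥ 2` be an integer.
(1) For every `κ < 1` there are `c > 0` and `C` such that for almost every real `α > 0` the set of the `n` with
`c H / n ≤ #{p prime : α b ^ n ≤ p ≤ α b ^ n + H} ≤ H / (c n)` for ALL real `H` with `n / c ≤ H ≤ b ^ (κ n)` has
logarithmic density at least `c` in every interval `[X, Y]` with large `X` and `Y ≥ X (log X) ^ C`.
(2) The same for the set of the `n` for which `[α b ^ n, α b ^ n + p_n]` contains at least `c log n` primes.
(3) For every `ε > 0` there are `δ > 0` and `C` such that for almost every `α > 0` the set of the `n` for which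
`[α b ^ n, α b ^ n + δ n]` contains no prime has logarithmic density at least `1 - ε` in all these intervals. -/
theorem result (b : ℕ) (hb : 2 ≤ b) :
    (∀ κ : ℝ, κ < 1 → ∃ (c : ℝ) (C : ℕ), 0 < c ∧ ∀ᵐ α : ℝ, 0 < α →
      LocDens {n : ℕ | ∀ H : ℝ, n / c ≤ H → H ≤ (b : ℝ) ^ (κ * n) →
        c * H / n ≤ primesIn (α * (b : ℝ) ^ n) H ∧ (primesIn (α * (b : ℝ) ^ n) H : ℝ) ≤ H / (c * n)} c C) ∧
    (∃ (c : ℝ) (C : ℕ), 0 < c ∧ ∀ᵐ α : ℝ, 0 < α →
      LocDens {n : ℕ | c * Real.log n ≤ primesIn (α * (b : ℝ) ^ n) (nthPrime n)} c C) ∧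
    (∀ ε : ℝ, 0 < ε → ∃ (δ : ℝ) (C : ℕ), 0 < δ ∧ ∀ᵐ α : ℝ, 0 < α →
      LocDens {n : ℕ | primesIn (α * (b : ℝ) ^ n) (δ * n) = 0} (1 - ε) C) := by
  have hb1 : (1 : ℝ) < b := by exact_mod_cast (by omega : 1 < b)
  have hb0 : (0 : ℝ) < b := by linarith
  have hlb : 0 < Real.log b := Real.log_pos hb1
  have hn : Tendsto (fun n : ℕ => (n : ℝ)) atTop atTop := tendsto_natCast_atTop_atTop
  refine ⟨fun κ hκ => all_scales b hb κ hκ, ?_, fun ε hε => ?_⟩
  · obtain ⟨c, C1, hc, h⟩ := all_scales b hb (1 / 2) (by norm_num)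
    obtain ⟨C, hC, hP⟩ := nthPrime_ge
    have hC0 : 0 < C := by linarith
    refine ⟨c / C, C1, by positivity, ?_⟩
    filter_upwards [h] with α hα hα0
    have h1 : Pool.Agent.V1193.PL.LocDens _ c C1 := hα hα0
    refine (h1.anti (div_le_self hc.le hC)).mono ?_
    have hlog : Tendsto (fun n : ℕ => Real.log (n : ℝ)) atTop atTop := Real.tendsto_log_atTop.comp hn
    have hexp : ∀ᶠ n : ℕ in atTop, (n : ℝ) * Real.log n ≤ (b : ℝ) ^ (1 / 2 * (n : ℝ)) := by
      have h2 := (Real.tendsto_pow_mul_exp_neg_atTop_nhds_zero 2).comp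
        (hn.const_mul_atTop (show 0 < Real.log b / 2 by positivity))
      have h3 := h2.eventually_le_const (show (0 : ℝ) < (Real.log b / 2) ^ 2 by positivity)
      filter_upwards [h3, eventually_ge_atTop 1] with n hn1 hn2
      have hnR : (1 : ℝ) ≤ n := by exact_mod_cast hn2
      simp only [Function.comp_def] at hn1
      have e : (b : ℝ) ^ (1 / 2 * (n : ℝ)) = Real.exp (Real.log b / 2 * n) := by
        rw [Real.rpow_def_of_pos hb0]
        congr 1
        ring
      rw [e]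
      have h4 : (n : ℝ) ^ 2 ≤ Real.exp (Real.log b / 2 * n) := by
        rw [mul_pow, Real.exp_neg, mul_assoc, ← div_eq_mul_inv] at hn1
        have h5 : (0 : ℝ) < (Real.log b / 2) ^ 2 := by positivity
        have h6 : (n : ℝ) ^ 2 / Real.exp (Real.log b / 2 * n) ≤ 1 := by
          by_contra hcon
          push Not at hcon
          nlinarith
        rwa [div_le_one (Real.exp_pos _)] at h6
      have h5 : Real.log n ≤ n := (Real.log_le_sub_one_of_pos (by linarith)).trans (by linarith)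
      nlinarith
    filter_upwards [hlog.eventually_ge_atTop (C / c), hexp, eventually_ge_atTop 1] with n hn1 hn2 hn3 hmem
    have hnR : (1 : ℝ) ≤ n := by exact_mod_cast hn3
    have hn0 : (0 : ℝ) < n := by linarith
    rw [div_le_iff₀ hc] at hn1
    have hl0 : 0 ≤ Real.log n := Real.log_nonneg hnR
    have h2 := (hmem (n * Real.log n / C) (by
      rw [div_le_div_iff₀ hc hC0]
      nlinarith) ((div_le_self (by positivity) hC).trans hn2)).1
    have h3 : n * Real.log n / C ≤ nthPrime n := by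
      rw [div_le_iff₀ hC0]
      linarith [hP n hn3]
    have h4 : (primesIn (α * (b : ℝ) ^ n) (n * Real.log n / C) : ℝ) ≤
        primesIn (α * (b : ℝ) ^ n) (nthPrime n) := by exact_mod_cast primesIn_mono h3
    refine le_trans (le_of_eq ?_) (h2.trans h4)
    field_simp
  · set ε' : ℝ := min ε 1 with hε'
    have hε'0 : 0 < ε' := lt_min hε one_pos
    have hε'1 : ε' ≤ 1 := min_le_right _ _
    obtain ⟨δ, hδ, X0, hS⟩ := Pool.Agent.V60.LD.empty_dense (ε := ε' / 2) (by positivity)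
    obtain ⟨C, hC⟩ := Pool.Agent.V1193.PL.loc_dens hb (by linarith : 0 ≤ 1 - ε' / 2) (by norm_num) (by norm_num)
      X0 hS (c' := 1 - ε') (by linarith) (by linarith)
    refine ⟨δ * Real.log b / 2, C, by positivity, ?_⟩
    filter_upwards [hC] with α hα hα0
    have hle : 1 - ε ≤ 1 - ε' := by
      have := min_le_left ε 1
      linarith
    refine (Pool.Agent.V1193.PL.LocDens.anti (hα hα0) hle).mono ?_
    obtain ⟨K, hK0, hK⟩ := Pool.Agent.V60.LD.log_floor hb hα0
    filter_upwards [hK, hn.eventually_ge_atTop (2 * K / Real.log b)] with n hnK hn1 hmem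
    obtain ⟨hm1, hlo, hhi⟩ := hnK
    rw [div_le_iff₀ hlb] at hn1
    show primesIn _ _ = 0
    unfold primesIn
    rw [Set.ncard_eq_zero (finite_primes _ _)]
    rw [Set.eq_empty_iff_forall_notMem]
    rintro p ⟨hp, h1, h2⟩
    have hmem' : ⌊α * (b : ℝ) ^ n⌋₊ ∈ Pool.Agent.V60.LD.SE δ := hmem
    have hx0 : 0 ≤ α * (b : ℝ) ^ n := by positivity
    have h3 := Nat.floor_le hx0
    have h4 := Nat.lt_floor_add_one (α * (b : ℝ) ^ n)
    refine hmem' p hp ?_ ?_
    · have : ((⌊α * (b : ℝ) ^ n⌋₊ : ℕ) : ℝ) ≤ p := by linarith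
      exact_mod_cast this
    · have h5 : δ * (n * Real.log b / 2) ≤ δ * Real.log ⌊α * (b : ℝ) ^ n⌋₊ :=
        mul_le_mul_of_nonneg_left (by linarith) hδ.le
      linarith

end Pool.Agent.Results.MP_78b39f_nt.ShortIntervalsOfExponents
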